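import Pool.Agent.H70pc.Ext

set_option autoImplicit false

open Real MeasureTheory intervalIntegral
open scoped ContDiff

namespace Pool.Agent.H70pc

/-! ### Nondegenerate closed curves in `ℝ²` and `ℝ³` -/

lemma nondegenerate_two : Nondegenerate (circle 2 1) := by
  rw [nondegenerate_iff (contDiff_circle 2 1)]
  intro t w hw
  have e1 : (fun s => inner ℝ w (circle 2 1 s)) = fun s => w 0 * cos s + w 1 * sin s := by
    funext s
    rw [PiLp.inner_apply, Fin.sum_univ_two]
    simp [circle]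
    ring
  rw [e1] at hw
  have d1 : ∀ s, HasDerivAt (fun s => w 0 * cos s + w 1 * sin s)
      (-(w 0 * sin s) + w 1 * cos s) s := by
    intro s
    refine (((hasDerivAt_cos s).const_mul (w 0)).add
      ((hasDerivAt_sin s).const_mul (w 1))).congr_deriv ?_
    ring
  have d2 : ∀ s, HasDerivAt (fun s => -(w 0 * sin s) + w 1 * cos s)
      (-(w 0 * cos s) - w 1 * sin s) s := by
    intro s
    refine ((((hasDerivAt_sin s).const_mul (w 0)).neg).add
      ((hasDerivAt_cos s).const_mul (w 1))).congr_deriv ?_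
    ring
  have e6 := hw 0 (by omega)
  have e7 := hw 1 (by omega)
  rw [zero_add, iteratedDeriv_one, (d1 t).deriv] at e6
  rw [iteratedDeriv_succ', iteratedDeriv_one, show deriv (fun s => w 0 * cos s + w 1 * sin s) =
    fun s => -(w 0 * sin s) + w 1 * cos s from funext fun s => (d1 s).deriv, (d2 t).deriv] at e7
  have hcs : cos t ^ 2 + sin t ^ 2 = 1 := cos_sq_add_sin_sq t
  have e9 : w 0 = 0 := by
    have : w 0 * (cos t ^ 2 + sin t ^ 2) = 0 := by linear_combination -sin t * e6 - cos t * e7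
    rwa [hcs, mul_one] at this
  have e10 : w 1 = 0 := by
    have : w 1 * (cos t ^ 2 + sin t ^ 2) = 0 := by linear_combination cos t * e6 - sin t * e7
    rwa [hcs, mul_one] at this
  ext i
  fin_cases i
  · simpa using e9
  · simpa using e10

/-- The closed curve `(9 cos t + 4 cos 2t, 9 sin t - 4 sin 2t, sin 3t)`. -/
noncomputable def space (t : ℝ) : E 3 :=
  WithLp.toLp 2 ![9 * cos t + 4 * cos (2 * t), 9 * sin t - 4 * sin (2 * t), sin (3 * t)]

lemma contDiff_space : ContDiff ℝ ∞ space := by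
  rw [contDiff_euclidean]
  intro i
  fin_cases i
  · show ContDiff ℝ ∞ fun t => 9 * cos t + 4 * cos (2 * t)
    fun_prop
  · show ContDiff ℝ ∞ fun t => 9 * sin t - 4 * sin (2 * t)
    fun_prop
  · show ContDiff ℝ ∞ fun t => sin (3 * t)
    fun_prop

lemma isClosedCurve_space : IsClosedCurve space := by
  refine ⟨contDiff_space, fun t => ?_⟩
  have h1 : 2 * (t + 2 * π) = 2 * t + (2 : ℕ) * (2 * π) := by push_cast; ring
  have h2 : 3 * (t + 2 * π) = 3 * t + (3 : ℕ) * (2 * π) := by push_cast; ring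
  unfold space
  rw [h1, h2, cos_add_nat_mul_two_pi, sin_add_nat_mul_two_pi, sin_add_nat_mul_two_pi,
    cos_add_two_pi, sin_add_two_pi]

lemma nondegenerate_space : Nondegenerate space := by
  rw [nondegenerate_iff contDiff_space]
  intro t w hw
  have e1 : (fun s => inner ℝ w (space s)) = fun s => w 0 * (9 * cos s + 4 * cos (2 * s)) +
      w 1 * (9 * sin s - 4 * sin (2 * s)) + w 2 * sin (3 * s) := by
    funext s
    rw [PiLp.inner_apply, Fin.sum_univ_three]
    simp [space]
    ring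
  rw [e1] at hw
  have c : ∀ (k s : ℝ), HasDerivAt (fun s => cos (k * s)) (-(k * sin (k * s))) s := by
    intro k s
    have := (hasDerivAt_cos (k * s)).comp s ((hasDerivAt_id s).const_mul k)
    refine this.congr_deriv ?_
    ring
  have c' : ∀ (k s : ℝ), HasDerivAt (fun s => sin (k * s)) (k * cos (k * s)) s := by
    intro k s
    have := (hasDerivAt_sin (k * s)).comp s ((hasDerivAt_id s).const_mul k)
    refine this.congr_deriv ?_
    ring
  have d1 : ∀ s, HasDerivAt (fun s => w 0 * (9 * cos s + 4 * cos (2 * s)) +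
      w 1 * (9 * sin s - 4 * sin (2 * s)) + w 2 * sin (3 * s))
      (w 0 * (-9 * sin s - 8 * sin (2 * s)) + w 1 * (9 * cos s - 8 * cos (2 * s)) +
        3 * w 2 * cos (3 * s)) s := by
    intro s
    refine (((((hasDerivAt_cos s).const_mul 9).add ((c 2 s).const_mul 4)).const_mul (w 0)).add
      ((((hasDerivAt_sin s).const_mul 9).sub ((c' 2 s).const_mul 4)).const_mul (w 1)) |>.add
      ((c' 3 s).const_mul (w 2))).congr_deriv ?_
    ring
  have d2 : ∀ s, HasDerivAt (fun s => w 0 * (-9 * sin s - 8 * sin (2 * s)) +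
      w 1 * (9 * cos s - 8 * cos (2 * s)) + 3 * w 2 * cos (3 * s))
      (w 0 * (-9 * cos s - 16 * cos (2 * s)) + w 1 * (-9 * sin s + 16 * sin (2 * s)) -
        9 * w 2 * sin (3 * s)) s := by
    intro s
    refine (((((hasDerivAt_sin s).const_mul (-9)).sub ((c' 2 s).const_mul 8)).const_mul (w 0)).add
      ((((hasDerivAt_cos s).const_mul 9).sub ((c 2 s).const_mul 8)).const_mul (w 1)) |>.add
      ((c 3 s).const_mul (3 * w 2))).congr_deriv ?_
    ring
  have d3 : ∀ s, HasDerivAt (fun s => w 0 * (-9 * cos s - 16 * cos (2 * s)) +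
      w 1 * (-9 * sin s + 16 * sin (2 * s)) - 9 * w 2 * sin (3 * s))
      (w 0 * (9 * sin s + 32 * sin (2 * s)) + w 1 * (-9 * cos s + 32 * cos (2 * s)) -
        27 * w 2 * cos (3 * s)) s := by
    intro s
    refine (((((hasDerivAt_cos s).const_mul (-9)).sub ((c 2 s).const_mul 16)).const_mul (w 0)).add
      ((((hasDerivAt_sin s).const_mul (-9)).add ((c' 2 s).const_mul 16)).const_mul (w 1)) |>.sub
      ((c' 3 s).const_mul (9 * w 2))).congr_deriv ?_
    ring
  have f1 := funext fun s => (d1 s).deriv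
  have f2 := funext fun s => (d2 s).deriv
  have g1 := hw 0 (by omega)
  have g2 := hw 1 (by omega)
  have g3 := hw 2 (by omega)
  rw [zero_add, iteratedDeriv_one, (d1 t).deriv] at g1
  rw [iteratedDeriv_succ', iteratedDeriv_one, f1, (d2 t).deriv] at g2
  rw [iteratedDeriv_succ', iteratedDeriv_succ', iteratedDeriv_one, f1, f2, (d3 t).deriv] at g3
  have h3 : cos (3 * t) = cos (2 * t) * cos t - sin (2 * t) * sin t := by
    rw [show 3 * t = 2 * t + t by ring, cos_add]
  have h3' : sin (3 * t) = sin (2 * t) * cos t + cos (2 * t) * sin t := by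
    rw [show 3 * t = 2 * t + t by ring, sin_add]
  have r1 : cos t ^ 2 + sin t ^ 2 = 1 := cos_sq_add_sin_sq t
  have r2 : cos (2 * t) ^ 2 + sin (2 * t) ^ 2 = 1 := cos_sq_add_sin_sq _
  have r3 : cos (3 * t) ^ 2 + sin (3 * t) ^ 2 = 1 := cos_sq_add_sin_sq _
  generalize cos t = c1 at *
  generalize sin t = s1 at *
  generalize cos (2 * t) = c2 at *
  generalize sin (2 * t) = s2 at *
  generalize cos (3 * t) = c3 at *
  generalize sin (3 * t) = s3 at *
  have a1 : w 0 * s2 + w 1 * c2 - w 2 * c3 = 0 := by linear_combination (g1 + g3) / 24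
  have a2 : w 0 * (-9 * s1 - 5 * s2) + w 1 * (9 * c1 - 5 * c2) = 0 := by
    linear_combination g1 + 3 * a1
  have a3 : w 0 * (9 * c1 * c3 + 16 * c2 * c3 + 9 * s3 * s2) +
      w 1 * (9 * s1 * c3 - 16 * s2 * c3 + 9 * s3 * c2) = 0 := by
    linear_combination -c3 * g2 + 9 * s3 * a1
  have a4 : (-9 * s1 - 5 * s2) * (9 * s1 * c3 - 16 * s2 * c3 + 9 * s3 * c2) -
      (9 * c1 - 5 * c2) * (9 * c1 * c3 + 16 * c2 * c3 + 9 * s3 * s2) =
      -(81 + 18 * c3 ^ 2 + c3) := by
    linear_combination (-81 * c3) * r1 + 80 * c3 * r2 + 99 * c3 * h3 + 81 * s3 * h3' - 81 * r3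
  have a5 : 81 + 18 * c3 ^ 2 + c3 ≠ 0 := by nlinarith [sq_nonneg (c3 + 1)]
  have b0 : w 0 = 0 := by
    have : w 0 * -(81 + 18 * c3 ^ 2 + c3) = 0 := by
      rw [← a4]
      linear_combination (9 * s1 * c3 - 16 * s2 * c3 + 9 * s3 * c2) * a2 -
        (9 * c1 - 5 * c2) * a3
    exact (mul_eq_zero.1 this).resolve_right (neg_ne_zero.2 a5)
  have b1 : w 1 = 0 := by
    have : w 1 * -(81 + 18 * c3 ^ 2 + c3) = 0 := by
      rw [← a4]
      linear_combination (-9 * s1 - 5 * s2) * a3 -
        (9 * c1 * c3 + 16 * c2 * c3 + 9 * s3 * s2) * a2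
    exact (mul_eq_zero.1 this).resolve_right (neg_ne_zero.2 a5)
  have b2 : w 2 = 0 := by
    rw [b0, b1] at a1 g2
    have : w 2 * (c3 ^ 2 + s3 ^ 2) = 0 := by linear_combination -c3 * a1 - s3 / 9 * g2
    rwa [r3, mul_one] at this
  ext i
  fin_cases i
  · simpa using b0
  · simpa using b1
  · simpa using b2

/-- Every neighbourhood of the circle in `ℝⁿ`, `n ≥ 4`, contains a nondegenerate closed curve, and
there are nondegenerate closed curves in `ℝⁿ`, `n ≥ 2`. -/
theorem exists_nondegenerate (n : ℕ) :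
    (2 ≤ n → ∃ γ : ℝ → E n, IsClosedCurve γ ∧ Nondegenerate γ) ∧ (4 ≤ n → Perturbable n 1) := by
  induction n using Nat.strong_induction_on with
  | _ n ih =>
    have key : 4 ≤ n → Perturbable n 1 := by
      intro hn
      obtain ⟨k, rfl⟩ : ∃ k, n = k + 2 := ⟨n - 2, by omega⟩
      obtain ⟨γ, h1, h2⟩ := (ih k (by omega)).1 (by omega)
      exact perturbable_one h1 h2
    refine ⟨fun hn => ?_, key⟩
    rcases Nat.lt_or_ge n 4 with h | h
    · interval_cases n
      · exact ⟨circle 2 1, ⟨contDiff_circle 2 1, periodic_circle 2 1⟩, nondegenerate_two⟩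
      · exact ⟨space, isClosedCurve_space, nondegenerate_space⟩
    · obtain ⟨γ, h1, h2, -⟩ := key h 0 1 one_pos
      exact ⟨γ, h1, h2⟩

end Pool.Agent.H70pc
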