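import Mathlib

/-!
# Nondegenerate closed curves in Euclidean space and multiply traversed circles

Definitions for MP_f07be6_gt: closed curves, nondegenerate curves, the circles `c_m`, the
neighbourhoods of a closed curve in the `C^∞` topology, the Frenet frame, its curvatures and its
length.
-/

set_option autoImplicit false

open Real
open scoped ContDiff

namespace Pool.Agent.H70pc

/-- The Euclidean space `ℝⁿ`. -/
abbrev E (n : ℕ) : Type := EuclideanSpace ℝ (Fin n)

/-- A smooth closed curve `S¹ = ℝ / 2πℤ → ℝⁿ`, given as a smooth `2π`-periodic map `ℝ → ℝⁿ`. -/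
def IsClosedCurve {n : ℕ} (γ : ℝ → E n) : Prop :=
  ContDiff ℝ ∞ γ ∧ Function.Periodic γ (2 * π)

/-- `γ` is nondegenerate: at every `t` the vectors `γ'(t), γ''(t), …, γ⁽ⁿ⁾(t)` are linearly
independent, that is `γ' ∧ γ'' ∧ ⋯ ∧ γ⁽ⁿ⁾ ≠ 0`. -/
def Nondegenerate {n : ℕ} (γ : ℝ → E n) : Prop :=
  ∀ t : ℝ, LinearIndependent ℝ fun k : Fin n => iteratedDeriv (k.val + 1) γ t

/-- The plane unit circle traversed `m` times, `c_m (t) = (cos mt, sin mt, 0, …, 0)`. -/
noncomputable def circle (n m : ℕ) (t : ℝ) : E n :=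
  WithLp.toLp 2 fun i : Fin n =>
    if i.val = 0 then cos (m * t) else if i.val = 1 then sin (m * t) else 0

/-- The basic neighbourhoods of the closed curve `c` in the `C^∞` topology: `γ` is in the
neighbourhood given by `r` and `ε` if the derivatives of `γ` and `c` of the orders `0, …, r` differ by
less than `ε` everywhere. -/
def Near {n : ℕ} (r : ℕ) (ε : ℝ) (c γ : ℝ → E n) : Prop :=
  ∀ j ≤ r, ∀ t : ℝ, ‖iteratedDeriv j γ t - iteratedDeriv j c t‖ < ε

/-- Every `C^∞`-neighbourhood of `c_m` in the space of the closed curves in `ℝⁿ` contains a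
nondegenerate closed curve. -/
def Perturbable (n m : ℕ) : Prop :=
  ∀ (r : ℕ) (ε : ℝ), 0 < ε → ∃ γ : ℝ → E n, IsClosedCurve γ ∧ Nondegenerate γ ∧
    Near r ε (circle n m) γ

/-- `μ` is the number `μ(n)`: the least `m ≥ 1` such that every `C^∞`-neighbourhood of `c_m` contains
a nondegenerate closed curve in `ℝⁿ`. -/
def IsMu (n μ : ℕ) : Prop := IsLeast {m : ℕ | 1 ≤ m ∧ Perturbable n m} μ

/-- The Frenet frame `e_1, …, e_n` (here `e_0, …, e_(n-1)`): the Gram-Schmidt orthonormalisation of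
`γ', …, γ⁽ⁿ⁾`. -/
noncomputable def frame {n : ℕ} (γ : ℝ → E n) (i : Fin n) (t : ℝ) : E n :=
  InnerProductSpace.gramSchmidtNormed ℝ (fun k : Fin n => iteratedDeriv (k.val + 1) γ t) i

/-- The curvature `κ_(i+1)`, `i + 1 < n`: the coefficient of the `(i + 2)`-th vector of the frame in
the derivative of the `(i + 1)`-st vector with respect to the arc length. -/
noncomputable def curvature {n : ℕ} (γ : ℝ → E n) (i : Fin (n - 1)) (t : ℝ) : ℝ :=
  inner ℝ (deriv (frame γ ⟨i.val, by omega⟩) t) (frame γ ⟨i.val + 1, by omega⟩ t) / ‖deriv γ t‖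

/-- The length `∫ (κ_1 ² + ⋯ + κ_(n-1) ²) ^ (1/2) ds` of the Frenet frame of a closed curve,
`ds = ‖γ'(t)‖ dt`. -/
noncomputable def frameLength {n : ℕ} (γ : ℝ → E n) : ℝ :=
  ∫ t in (0 : ℝ)..(2 * π), √(∑ i : Fin (n - 1), curvature γ i t ^ 2) * ‖deriv γ t‖

end Pool.Agent.H70pc
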