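import Pool.Agent.H70pc.Pert

set_option autoImplicit false

open Real MeasureTheory intervalIntegral
open scoped ContDiff

namespace Pool.Agent.H70pc

/-- The embedding `x ↦ (0, 0, x)` of `ℝⁿ` in `ℝⁿ⁺²`. -/
noncomputable def ext {n : ℕ} (v : E n) : E (n + 2) :=
  WithLp.toLp 2 (Fin.cons 0 (Fin.cons 0 fun i => v i))

/-- The last `n` coordinates. -/
noncomputable def tail {n : ℕ} (w : E (n + 2)) : E n :=
  WithLp.toLp 2 fun i => w i.succ.succ

lemma contDiff_ext {n : ℕ} {f : ℝ → E n} (hf : ContDiff ℝ ∞ f) :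
    ContDiff ℝ ∞ fun t => ext (f t) := by
  rw [contDiff_euclidean]
  intro i
  refine Fin.cases ?_ (fun i => ?_) i
  · exact contDiff_const
  · refine Fin.cases ?_ (fun i => ?_) i
    · exact contDiff_const
    · exact contDiff_euclidean.1 hf i

lemma contDiff_circle (n m : ℕ) : ContDiff ℝ ∞ (circle n m) := by
  rw [contDiff_euclidean]
  intro i
  show ContDiff ℝ ∞ fun t =>
    if i.val = 0 then cos (m * t) else if i.val = 1 then sin (m * t) else 0
  split_ifs
  · fun_prop
  · fun_prop
  · fun_prop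

lemma periodic_circle (n m : ℕ) : Function.Periodic (circle n m) (2 * π) := by
  intro t
  have h1 : (m : ℝ) * (t + 2 * π) = m * t + m * (2 * π) := by ring
  ext i
  show (if i.val = 0 then cos (m * (t + 2 * π)) else if i.val = 1 then sin (m * (t + 2 * π)) else 0)
    = (if i.val = 0 then cos (m * t) else if i.val = 1 then sin (m * t) else 0)
  rw [h1, cos_add_nat_mul_two_pi, sin_add_nat_mul_two_pi]

lemma inner_circle_add {n : ℕ} (w : E (n + 2)) (v : E n) (ε t : ℝ) :
    inner ℝ w (circle (n + 2) 1 t + ε • ext v) =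
      w 0 * cos t + w 1 * sin t + ε * inner ℝ (tail w) v := by
  rw [PiLp.inner_apply, PiLp.inner_apply, Fin.sum_univ_succ, Fin.sum_univ_succ, Finset.mul_sum,
    ← add_assoc]
  congr 1
  · simp [circle, ext]
    ring
  · refine Finset.sum_congr rfl fun i _ => ?_
    simp [circle, ext, tail]
    ring

lemma ext_smul_periodic {n : ℕ} {f : ℝ → E n} (hf : Function.Periodic f (2 * π)) (ε : ℝ) :
    Function.Periodic (fun t => circle (n + 2) 1 t + ε • ext (f t)) (2 * π) := by
  intro t
  show circle (n + 2) 1 (t + 2 * π) + ε • ext (f (t + 2 * π)) = _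
  rw [periodic_circle (n + 2) 1 t, hf t]

/-- The main computation: if `γ` is nondegenerate in `ℝⁿ`, then `(cos t, sin t, ε f(t))` with
`f'' + f = γ(2 t)` is nondegenerate in `ℝⁿ⁺²`. -/
lemma nondegenerate_ext {n : ℕ} {γ : ℝ → E n} (hγ : ContDiff ℝ ∞ γ) (hn : Nondegenerate γ)
    {ε : ℝ} (hε : ε ≠ 0) :
    Nondegenerate fun t => circle (n + 2) 1 t + ε • ext (sol (fun s => γ (2 * s)) t) := by
  have hG : ContDiff ℝ ∞ fun s : ℝ => γ (2 * s) := hγ.comp (contDiff_const.mul contDiff_id)
  have hs : ContDiff ℝ ∞ (sol fun s => γ (2 * s)) := contDiff_sol hG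
  have hcd : ContDiff ℝ ∞ fun t => circle (n + 2) 1 t + ε • ext (sol (fun s => γ (2 * s)) t) :=
    (contDiff_circle _ _).add ((contDiff_ext hs).const_smul ε)
  rw [nondegenerate_iff hcd]
  intro t w hw
  have e1 : (fun s => inner ℝ w (circle (n + 2) 1 s + ε • ext (sol (fun s => γ (2 * s)) s))) =
      fun s => w 0 * cos s + w 1 * sin s + ε * inner ℝ (tail w) (sol (fun s => γ (2 * s)) s) :=
    funext fun s => inner_circle_add w _ ε s
  rw [e1] at hw
  set φ : ℝ → ℝ := fun s => inner ℝ (tail w) (sol (fun s => γ (2 * s)) s) with hφ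
  set ψ : ℝ → ℝ := fun s => inner ℝ (tail w) (γ (2 * s)) with hψ
  set h : ℝ → ℝ := fun s => w 0 * cos s + w 1 * sin s + ε * φ s with hh
  have hφc : ContDiff ℝ ∞ φ := contDiff_const.inner ℝ hs
  have hψc : ContDiff ℝ ∞ ψ := contDiff_const.inner ℝ hG
  have hhc : ContDiff ℝ ∞ h := by
    have := contDiff_cos (n := ∞)
    have := contDiff_sin (n := ∞)
    fun_prop
  have d1 : ∀ s, HasDerivAt φ (inner ℝ (tail w) (deriv (sol fun s => γ (2 * s)) s)) s := by
    intro s
    have := (hasDerivAt_const s (tail w)).inner ℝ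
      ((hs.differentiable (by simp)) s).hasDerivAt
    simpa using this
  have d2 : ∀ s, HasDerivAt (deriv φ) (ψ s - φ s) s := by
    intro s
    rw [show deriv φ = fun s => inner ℝ (tail w) (deriv (sol fun s => γ (2 * s)) s) from
      funext fun s => (d1 s).deriv]
    have := (hasDerivAt_const s (tail w)).inner ℝ (hasDerivAt_deriv_sol hG s)
    simpa [inner_sub_right, hφ, hψ] using this
  have d3 : ∀ s, HasDerivAt h (-(w 0 * sin s) + w 1 * cos s + ε * deriv φ s) s := by
    intro s
    have h1 := ((hasDerivAt_cos s).const_mul (w 0)).add ((hasDerivAt_sin s).const_mul (w 1))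
    have h2 := h1.add (((hφc.differentiable (by simp)) s).hasDerivAt.const_mul ε)
    refine h2.congr_deriv ?_
    ring
  have d4 : ∀ s, HasDerivAt (deriv h) (ε * ψ s - h s) s := by
    intro s
    rw [show deriv h = fun s => -(w 0 * sin s) + w 1 * cos s + ε * deriv φ s from
      funext fun s => (d3 s).deriv]
    have h1 := (((hasDerivAt_sin s).const_mul (w 0)).neg).add ((hasDerivAt_cos s).const_mul (w 1))
    have h2 := h1.add ((d2 s).const_mul ε)
    refine h2.congr_deriv ?_
    simp only [hh]
    ring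
  have e2 : deriv (deriv h) = fun s => ε * ψ s - h s := funext fun s => (d4 s).deriv
  -- the derivatives of `ψ` vanish at `t`
  have e3 : ∀ k < n, iteratedDeriv (k + 1) ψ t = 0 := by
    intro k hk
    have h1 : iteratedDeriv (k + 1 + 1 + 1) h t = 0 := hw (k + 2) (by omega)
    have h2 : iteratedDeriv (k + 1) h t = 0 := hw k (by omega)
    rw [iteratedDeriv_succ', iteratedDeriv_succ', e2, iteratedDeriv_fun_sub
      (((contDiff_const (c := ε)).mul hψc).contDiffAt.of_le (by exact_mod_cast le_top))
      (hhc.contDiffAt.of_le (by exact_mod_cast le_top)), h2, sub_zero, iteratedDeriv_const_mul_field] at h1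
    exact (mul_eq_zero.1 h1).resolve_left hε
  have e4 : tail w = 0 := by
    refine (nondegenerate_iff hγ).1 hn (2 * t) (tail w) fun k hk => ?_
    have h1 := e3 k hk
    have hc : ContDiff ℝ (k + 1 : ℕ) fun s : ℝ => inner ℝ (tail w) (γ s) :=
      (contDiff_const.inner ℝ hγ).of_le (by exact_mod_cast le_top)
    have h2 := congrFun (iteratedDeriv_comp_const_mul hc 2) t
    rw [h2] at h1
    exact (mul_eq_zero.1 h1).resolve_left (by positivity)
  have e5 : φ = fun _ => 0 := by
    funext s
    simp [hφ, e4]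
  have e6 : deriv h t = 0 := by
    have := hw 0 (by omega)
    rwa [zero_add, iteratedDeriv_one] at this
  have e7 : deriv (deriv h) t = 0 := by
    have := hw 1 (by omega)
    rwa [iteratedDeriv_succ', iteratedDeriv_one] at this
  rw [(d3 t).deriv, e5] at e6
  rw [(d4 t).deriv] at e7
  have e8 : ψ t = 0 := by simp [hψ, e4]
  rw [e8, hh, e5] at e7
  simp only [deriv_const', mul_zero, add_zero] at e6 e7
  have hcs : cos t ^ 2 + sin t ^ 2 = 1 := cos_sq_add_sin_sq t
  have e9 : w 0 = 0 := by
    have : w 0 * (cos t ^ 2 + sin t ^ 2) = 0 := by linear_combination -sin t * e6 - cos t * e7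
    rwa [hcs, mul_one] at this
  have e10 : w 1 = 0 := by
    have : w 1 * (cos t ^ 2 + sin t ^ 2) = 0 := by linear_combination cos t * e6 - sin t * e7
    rwa [hcs, mul_one] at this
  ext i
  refine Fin.cases ?_ (fun i => ?_) i
  · simpa using e9
  · refine Fin.cases ?_ (fun i => ?_) i
    · simpa using e10
    · have := congrArg (fun v : E n => v i) e4
      simpa [tail] using this

/-- A smooth periodic curve has bounded derivatives. -/
lemma exists_bound {n : ℕ} {g : ℝ → E n} (hg : ContDiff ℝ ∞ g)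
    (hp : Function.Periodic g (2 * π)) (j : ℕ) : ∃ M : ℝ, ∀ t, ‖iteratedDeriv j g t‖ ≤ M := by
  have hpj : Function.Periodic (iteratedDeriv j g) (2 * π) := by
    intro t
    have h1 : (fun s => g (s + 2 * π)) = g := funext hp
    have h2 := congrFun (iteratedDeriv_comp_add_const j g (2 * π)) t
    rw [h1] at h2
    exact h2.symm
  have hc : Continuous (iteratedDeriv j g) :=
    hg.continuous_iteratedDeriv j (by exact_mod_cast le_top)
  obtain ⟨M, hM⟩ := (isCompact_Icc (a := (0 : ℝ)) (b := 2 * π)).exists_bound_of_continuousOn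
    hc.continuousOn
  refine ⟨M, fun t => ?_⟩
  obtain ⟨s, hs, hs'⟩ := hpj.exists_mem_Ico₀ two_pi_pos t
  rw [hs']
  exact hM s ⟨hs.1, hs.2.le⟩

/-- If there is a nondegenerate closed curve in `ℝⁿ` then every neighbourhood of the circle in
`ℝⁿ⁺²` contains one. -/
theorem perturbable_one {n : ℕ} {γ : ℝ → E n} (hγ : IsClosedCurve γ) (hn : Nondegenerate γ) :
    Perturbable (n + 2) 1 := by
  intro r ε hε
  set f : ℝ → E n := sol fun s => γ (2 * s) with hf
  have hG : ContDiff ℝ ∞ fun s : ℝ => γ (2 * s) := hγ.1.comp (contDiff_const.mul contDiff_id)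
  have hGp : Function.Periodic (fun s : ℝ => γ (2 * s)) π := by
    intro s
    show γ (2 * (s + π)) = γ (2 * s)
    rw [mul_add]
    exact hγ.2 _
  have hfc : ContDiff ℝ ∞ f := contDiff_sol hG
  have hfp : Function.Periodic f (2 * π) := periodic_sol hG hGp
  have hgc : ContDiff ℝ ∞ fun t => ext (f t) := contDiff_ext hfc
  have hgp : Function.Periodic (fun t => ext (f t)) (2 * π) := fun t => by
    show ext (f (t + 2 * π)) = ext (f t)
    rw [hfp t]
  choose M hM using exists_bound hgc hgp
  obtain ⟨B, hB0, hB⟩ : ∃ B : ℝ, 0 < B ∧ ∀ j ≤ r, M j < B := by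
    refine ⟨1 + ∑ j ∈ Finset.range (r + 1), |M j|, by positivity, fun j hj => ?_⟩
    have h1 : |M j| ≤ ∑ j ∈ Finset.range (r + 1), |M j| :=
      Finset.single_le_sum (f := fun j => |M j|) (fun _ _ => abs_nonneg _)
        (Finset.mem_range.2 (by omega))
    have := le_abs_self (M j)
    linarith
  refine ⟨fun t => circle (n + 2) 1 t + (ε / B) • ext (f t), ⟨(contDiff_circle _ _).add
    (hgc.const_smul (ε / B)), ext_smul_periodic hfp _⟩,
    nondegenerate_ext hγ.1 hn (by positivity), fun j hj t => ?_⟩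
  have h1 : iteratedDeriv j (fun t => circle (n + 2) 1 t + (ε / B) • ext (f t)) t =
      iteratedDeriv j (circle (n + 2) 1) t + (ε / B) • iteratedDeriv j (fun t => ext (f t)) t := by
    rw [iteratedDeriv_fun_add, iteratedDeriv_fun_const_smul_field]
    · exact (contDiff_circle _ _).contDiffAt.of_le (by exact_mod_cast le_top)
    · exact (hgc.const_smul (ε / B)).contDiffAt.of_le (by exact_mod_cast le_top)
  rw [h1, add_sub_cancel_left, norm_smul, norm_of_nonneg (by positivity)]
  have h2 := hM j t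
  have h3 := hB j hj
  calc ε / B * ‖iteratedDeriv j (fun t => ext (f t)) t‖ ≤ ε / B * M j := by gcongr
    _ < ε / B * B := by gcongr
    _ = ε := by field_simp

end Pool.Agent.H70pc
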