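import Mathlib

/-!
# Fenchel's theorem for weighted closed curves in an inner product space
-/

set_option autoImplicit false

open Real MeasureTheory intervalIntegral InnerProductGeometry Filter Topology Set

namespace Pool.Agent.H70pc

variable {V : Type*} [NormedAddCommGroup V] [InnerProductSpace ℝ V]

lemma inner_eq_cos_angle {x y : V} (hx : ‖x‖ = 1) (hy : ‖y‖ = 1) :
    inner ℝ x y = cos (angle x y) := by
  rw [← cos_angle_mul_norm_mul_norm, hx, hy, mul_one, mul_one]

lemma angle_eq_two_arcsin {x y : V} (hx : ‖x‖ = 1) (hy : ‖y‖ = 1) :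
    angle x y = 2 * arcsin (‖x - y‖ / 2) := by
  have h0 := angle_nonneg x y
  have h1 := angle_le_pi x y
  have h2 : ‖x - y‖ ^ 2 = 4 * sin (angle x y / 2) ^ 2 := by
    rw [@norm_sub_sq_real, hx, hy, inner_eq_cos_angle hx hy]
    have : cos (angle x y) = 2 * cos (angle x y / 2) ^ 2 - 1 := by
      rw [← cos_two_mul]; ring_nf
    rw [this]
    nlinarith [sin_sq_add_cos_sq (angle x y / 2)]
  have h3 : 0 ≤ sin (angle x y / 2) := sin_nonneg_of_nonneg_of_le_pi (by linarith) (by linarith)
  have h4 : ‖x - y‖ / 2 = sin (angle x y / 2) := by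
    have h5 : ‖x - y‖ ^ 2 = (2 * sin (angle x y / 2)) ^ 2 := by rw [h2]; ring
    have h6 : ‖x - y‖ = 2 * sin (angle x y / 2) :=
      (sq_eq_sq₀ (norm_nonneg _) (by positivity)).1 h5
    rw [h6]; ring
  rw [h4, arcsin_sin (by linarith) (by linarith)]
  ring

lemma continuous_angle_comp {T : ℝ → V} (hT : Continuous T) (hu : ∀ t, ‖T t‖ = 1) (x : V)
    (hx : ‖x‖ = 1) : Continuous fun s => angle x (T s) := by
  have e : (fun s => angle x (T s)) = fun s => 2 * arcsin (‖x - T s‖ / 2) :=
    funext fun s => angle_eq_two_arcsin hx (hu s)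
  rw [e]
  fun_prop

/-- the right derivative of the angle swept by a curve in the unit sphere -/
lemma hasDerivWithinAt_angle {T : ℝ → V} {T' : V} {t : ℝ} (hT : HasDerivAt T T' t)
    (hu : ∀ t, ‖T t‖ = 1) :
    HasDerivWithinAt (fun s => angle (T t) (T s)) ‖T'‖ (Ioi t) t := by
  have e : (fun s => angle (T t) (T s)) = fun s => 2 * arcsin (‖T t - T s‖ / 2) :=
    funext fun s => angle_eq_two_arcsin (hu t) (hu s)
  rw [e]
  have h1 : HasDerivWithinAt (fun s => ‖T t - T s‖) ‖T'‖ (Ioi t) t := by
    rw [hasDerivWithinAt_iff_tendsto_slope' (by simp)]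
    have h2 : Tendsto (slope T t) (𝓝[>] t) (𝓝 T') :=
      (hasDerivWithinAt_iff_tendsto_slope' (by simp)).1 hT.hasDerivWithinAt
    refine (h2.norm).congr' ?_
    filter_upwards [self_mem_nhdsWithin] with s hs
    have hs' : t < s := hs
    rw [slope_def_module, slope_def_module, norm_smul, sub_self, norm_zero, sub_zero, norm_sub_rev,
      smul_eq_mul, norm_inv, norm_of_nonneg (by linarith : (0 : ℝ) ≤ s - t)]
  have h3 : HasDerivAt arcsin 1 (‖T t - T t‖ / 2) := by
    rw [sub_self, norm_zero, zero_div]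
    have := hasDerivAt_arcsin (x := 0) (by norm_num) (by norm_num)
    simpa using this
  have h4 := (h3.comp_hasDerivWithinAt t (h1.div_const 2)).const_mul 2
  refine h4.congr_deriv ?_
  ring

/-- the angle between two points of a curve in the unit sphere is at most the length between them -/
lemma angle_le_integral {T : ℝ → V} (hT : ContDiff ℝ 1 T) (hu : ∀ t, ‖T t‖ = 1) {a b : ℝ}
    (hab : a ≤ b) : angle (T a) (T b) ≤ ∫ t in a..b, ‖deriv T t‖ := by
  have hd : ∀ t, HasDerivAt T (deriv T t) t := fun t =>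
    ((hT.differentiable (by norm_num)).differentiableAt).hasDerivAt
  have hc : Continuous fun t => ‖deriv T t‖ := (hT.continuous_deriv (by norm_num)).norm
  refine image_le_of_liminf_slope_right_le_deriv_boundary (f := fun s => angle (T a) (T s))
    (B := fun s => ∫ t in a..s, ‖deriv T t‖) (B' := fun s => ‖deriv T s‖) (a := a) (b := b)
    (continuous_angle_comp hT.continuous hu (T a) (hu a)).continuousOn ?_ ?_ ?_ ?_
    (right_mem_Icc.2 hab)
  · have h1 : T a ≠ 0 := fun h => by have := hu a; rw [h, norm_zero] at this; norm_num at this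
    simp [angle_self h1]
  · exact (intervalIntegral.continuous_primitive (fun _ _ => hc.intervalIntegrable _ _) a).continuousOn
  · intro x _
    exact (intervalIntegral.integral_hasDerivAt_right (hc.intervalIntegrable _ _)
      (hc.stronglyMeasurableAtFilter _ _) hc.continuousAt).hasDerivWithinAt
  · intro x _ r hr
    have h1 := (hasDerivWithinAt_iff_tendsto_slope' (by simp)).1 (hasDerivWithinAt_angle (hd x) hu)
    have h2 : ∀ᶠ z in 𝓝[>] x, slope (fun s => angle (T x) (T s)) x z < r :=
      h1.eventually (gt_mem_nhds hr)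
    refine Eventually.frequently ?_
    filter_upwards [h2, self_mem_nhdsWithin] with z hz hzx
    have hzx' : x < z := hzx
    refine lt_of_le_of_lt ?_ hz
    rw [slope_def_field, slope_def_field]
    refine div_le_div_of_nonneg_right ?_ (by linarith)
    have h3 : T x ≠ 0 := fun h => by have := hu x; rw [h, norm_zero] at this; norm_num at this
    have h4 := angle_le_angle_add_angle (T a) (T x) (T z)
    rw [angle_self h3]
    linarith

lemma inner_add_pos {x y z : V} (hx : ‖x‖ = 1) (hy : ‖y‖ = 1) (hz : ‖z‖ = 1)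
    (h : angle x z + angle z y < π) : 0 < inner ℝ (x + y) z := by
  rw [inner_add_left, inner_eq_cos_angle hx hz, inner_eq_cos_angle hy hz, angle_comm y z]
  have h1 := cos_lt_cos_of_nonneg_of_le_pi (angle_nonneg x z) (y := π - angle z y)
    (by linarith [angle_nonneg z y]) (by linarith)
  rw [cos_pi_sub] at h1
  linarith

/-- **Fenchel's theorem**, in the form of the curve `T` of the unit tangent vectors and of the speed
`v`. -/
theorem fenchel [CompleteSpace V] {T : ℝ → V} {v : ℝ → ℝ} (hT : ContDiff ℝ 1 T)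
    (hu : ∀ t, ‖T t‖ = 1)
    (hv : Continuous v) (hv0 : ∀ t, 0 < v t) {L : ℝ} (hL : 0 < L) (hper : T L = T 0)
    (hint : ∫ t in (0 : ℝ)..L, v t • T t = 0) : 2 * π ≤ ∫ t in (0 : ℝ)..L, ‖deriv T t‖ := by
  by_contra hlt
  rw [not_le] at hlt
  have hc : Continuous fun t => ‖deriv T t‖ := (hT.continuous_deriv (by norm_num)).norm
  have hi : ∀ a b : ℝ, IntervalIntegrable (fun t => ‖deriv T t‖) volume a b :=
    fun a b => hc.intervalIntegrable a b
  have hF : Continuous fun s : ℝ => ∫ t in (0 : ℝ)..s, ‖deriv T t‖ :=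
    intervalIntegral.continuous_primitive (fun _ _ => hi _ _) 0
  have hℓ : 0 ≤ ∫ t in (0 : ℝ)..L, ‖deriv T t‖ :=
    intervalIntegral.integral_nonneg hL.le fun _ _ => norm_nonneg _
  obtain ⟨c, hcm, hcv⟩ : ∃ c ∈ Icc (0 : ℝ) L, ∫ t in (0 : ℝ)..c, ‖deriv T t‖ =
      (∫ t in (0 : ℝ)..L, ‖deriv T t‖) / 2 := by
    have h1 := intermediate_value_Icc hL.le hF.continuousOn
    have h2 : (∫ t in (0 : ℝ)..L, ‖deriv T t‖) / 2 ∈
        Icc (∫ t in (0 : ℝ)..0, ‖deriv T t‖) (∫ t in (0 : ℝ)..L, ‖deriv T t‖) := by
      rw [intervalIntegral.integral_same]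
      constructor <;> linarith
    obtain ⟨c, hc1, hc2⟩ := h1 h2
    exact ⟨c, hc1, hc2⟩
  have hcv' : ∫ t in c..L, ‖deriv T t‖ = (∫ t in (0 : ℝ)..L, ‖deriv T t‖) / 2 := by
    have := intervalIntegral.integral_add_adjacent_intervals (hi 0 c) (hi c L)
    linarith
  have key : ∀ t ∈ Icc (0 : ℝ) L, 0 < inner ℝ (T 0 + T c) (T t) := by
    intro t ht
    rcases le_total t c with h | h
    · refine inner_add_pos (hu 0) (hu c) (hu t) ?_
      have h1 := angle_le_integral hT hu ht.1
      have h2 := angle_le_integral hT hu h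
      have h3 := intervalIntegral.integral_add_adjacent_intervals (hi 0 t) (hi t c)
      linarith
    · rw [add_comm]
      refine inner_add_pos (hu c) (hu 0) (hu t) ?_
      have h1 := angle_le_integral hT hu h
      have h2 := angle_le_integral hT hu ht.2
      have h3 := intervalIntegral.integral_add_adjacent_intervals (hi c t) (hi t L)
      rw [hper] at h2
      linarith
  have h5 : 0 < ∫ t in (0 : ℝ)..L, inner ℝ (T 0 + T c) (v t • T t) := by
    refine intervalIntegral.intervalIntegral_pos_of_pos_on ?_ ?_ hL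
    · refine Continuous.intervalIntegrable ?_ _ _
      exact continuous_const.inner (hv.smul hT.continuous)
    · intro x hx
      rw [inner_smul_right]
      exact mul_pos (hv0 x) (key x ⟨hx.1.le, hx.2.le⟩)
  have h6 : ∫ t in (0 : ℝ)..L, inner ℝ (T 0 + T c) (v t • T t) = 0 := by
    have := (innerSL ℝ (T 0 + T c)).intervalIntegral_comp_comm (μ := volume) (a := 0) (b := L)
      (f := fun t => v t • T t) ((hv.smul hT.continuous).intervalIntegrable _ _)
    simp only [innerSL_apply_apply] at this
    rw [this, hint, inner_zero_right]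
  linarith

end Pool.Agent.H70pc
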