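import Pool.Agent.H70pc.Ext
import Pool.Agent.H70pc.Fenchel

/-!
# The Frenet frame of a nondegenerate curve
-/

set_option autoImplicit false

open Real MeasureTheory intervalIntegral
open scoped ContDiff

namespace Pool.Agent.H70pc

variable {n : ℕ} {γ : ℝ → E n}

/-- The Gram-Schmidt orthogonalisation of `γ', …, γ⁽ⁿ⁾`. -/
noncomputable def gs (γ : ℝ → E n) (i : Fin n) (t : ℝ) : E n :=
  InnerProductSpace.gramSchmidt ℝ (fun k : Fin n => iteratedDeriv (k.val + 1) γ t) i

lemma gs_eq (γ : ℝ → E n) (i : Fin n) (t : ℝ) :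
    gs γ i t = iteratedDeriv (i.val + 1) γ t - ∑ j ∈ Finset.Iio i,
      (inner ℝ (gs γ j t) (iteratedDeriv (i.val + 1) γ t) / ‖gs γ j t‖ ^ 2) • gs γ j t := by
  rw [gs, InnerProductSpace.gramSchmidt_def]
  congr 1
  refine Finset.sum_congr rfl fun j _ => ?_
  rw [Submodule.starProjection_singleton]
  rfl

lemma gs_ne_zero (hn : Nondegenerate γ) (i : Fin n) (t : ℝ) : gs γ i t ≠ 0 :=
  InnerProductSpace.gramSchmidt_ne_zero i (hn t)

lemma frame_eq (γ : ℝ → E n) (i : Fin n) (t : ℝ) :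
    frame γ i t = ‖gs γ i t‖⁻¹ • gs γ i t := rfl

lemma contDiff_iter (hγ : ContDiff ℝ ∞ γ) (k : ℕ) : ContDiff ℝ ∞ (iteratedDeriv k γ) :=
  by
  rw [iteratedDeriv_eq_iterate]
  exact hγ.iterate_deriv k

/-- the coefficients of the orthogonalisation -/
noncomputable def coef (γ : ℝ → E n) (i j : Fin n) (t : ℝ) : ℝ :=
  inner ℝ (gs γ j t) (iteratedDeriv (i.val + 1) γ t) / ‖gs γ j t‖ ^ 2

lemma contDiff_coef (hγ : ContDiff ℝ ∞ γ) (hn : Nondegenerate γ) (i j : Fin n)
    (h : ContDiff ℝ ∞ (gs γ j)) : ContDiff ℝ ∞ (coef γ i j) := by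
  refine (h.inner ℝ (contDiff_iter hγ _)).div (h.norm_sq ℝ) fun t => ?_
  have := gs_ne_zero hn j t
  positivity

lemma contDiff_gs (hγ : ContDiff ℝ ∞ γ) (hn : Nondegenerate γ) (i : Fin n) :
    ContDiff ℝ ∞ (gs γ i) := by
  induction i using WellFoundedLT.induction with
  | ind i ih =>
    have e : gs γ i = fun t => iteratedDeriv (i.val + 1) γ t - ∑ j ∈ Finset.Iio i,
      coef γ i j t • gs γ j t := funext fun t => gs_eq γ i t
    rw [e]
    refine (contDiff_iter hγ _).sub (ContDiff.sum fun j hj => ?_)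
    have hj' := ih j (Finset.mem_Iio.1 hj)
    exact (contDiff_coef hγ hn i j hj').smul hj'

lemma contDiff_frame (hγ : ContDiff ℝ ∞ γ) (hn : Nondegenerate γ) (i : Fin n) :
    ContDiff ℝ ∞ (frame γ i) := by
  have e : frame γ i = fun t => ‖gs γ i t‖⁻¹ • gs γ i t := funext fun t => frame_eq γ i t
  rw [e]
  refine ContDiff.smul (ContDiff.inv ((contDiff_gs hγ hn i).norm ℝ fun t => gs_ne_zero hn i t)
    fun t => ?_) (contDiff_gs hγ hn i)
  exact norm_ne_zero_iff.2 (gs_ne_zero hn i t)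

/-- a vector orthogonal to the first derivatives is orthogonal to the first vectors of the frame -/
lemma inner_gs_eq_zero (i : Fin n) (t : ℝ) (w : E n)
    (hw : ∀ k ≤ i, inner ℝ w (iteratedDeriv (k.val + 1) γ t) = 0) : inner ℝ w (gs γ i t) = 0 := by
  have h := InnerProductSpace.gramSchmidt_mem_span ℝ
    (fun k : Fin n => iteratedDeriv (k.val + 1) γ t) (le_refl i)
  have h2 : Submodule.span ℝ ((fun k : Fin n => iteratedDeriv (k.val + 1) γ t) '' Set.Iic i) ≤
      LinearMap.ker (innerSL ℝ w).toLinearMap := by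
    rw [Submodule.span_le]
    rintro _ ⟨k, hk, rfl⟩
    simpa using hw k hk
  simpa [gs] using h2 h

/-- conversely -/
lemma inner_iter_eq_zero (i : Fin n) (t : ℝ) (w : E n)
    (hw : ∀ k ≤ i, inner ℝ w (gs γ k t) = 0) :
    inner ℝ w (iteratedDeriv (i.val + 1) γ t) = 0 := by
  have h := InnerProductSpace.mem_span_gramSchmidt ℝ
    (fun k : Fin n => iteratedDeriv (k.val + 1) γ t) (le_refl i)
  have h2 : Submodule.span ℝ ((InnerProductSpace.gramSchmidt ℝ
      (fun k : Fin n => iteratedDeriv (k.val + 1) γ t)) '' Set.Iic i) ≤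
      LinearMap.ker (innerSL ℝ w).toLinearMap := by
    rw [Submodule.span_le]
    rintro _ ⟨k, hk, rfl⟩
    simpa [gs] using hw k hk
  simpa using h2 h

lemma inner_deriv_gs (hγ : ContDiff ℝ ∞ γ) (hn : Nondegenerate γ) (i : Fin n) (t : ℝ) (w : E n)
    (hw : ∀ k ≤ i, inner ℝ w (iteratedDeriv (k.val + 1) γ t) = 0) :
    inner ℝ w (deriv (gs γ i) t) = inner ℝ w (iteratedDeriv (i.val + 2) γ t) := by
  induction i using WellFoundedLT.induction with
  | ind i ih =>
    have e : gs γ i = fun t => iteratedDeriv (i.val + 1) γ t - ∑ j ∈ Finset.Iio i,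
      coef γ i j t • gs γ j t := funext fun t => gs_eq γ i t
    have hd : ∀ j, HasDerivAt (gs γ j) (deriv (gs γ j) t) t := fun j =>
      (((contDiff_gs hγ hn j).differentiable (by simp)).differentiableAt).hasDerivAt
    have hc : ∀ j, HasDerivAt (coef γ i j) (deriv (coef γ i j) t) t := fun j =>
      (((contDiff_coef hγ hn i j (contDiff_gs hγ hn j)).differentiable
        (by simp)).differentiableAt).hasDerivAt
    have hf : HasDerivAt (iteratedDeriv (i.val + 1) γ) (iteratedDeriv (i.val + 2) γ t) t := by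
      have := (((contDiff_iter hγ (i.val + 1)).differentiable
        (by simp)).differentiableAt (x := t)).hasDerivAt
      rwa [← iteratedDeriv_succ] at this
    have h1 : HasDerivAt (gs γ i) (iteratedDeriv (i.val + 2) γ t - ∑ j ∈ Finset.Iio i,
        (coef γ i j t • deriv (gs γ j) t + deriv (coef γ i j) t • gs γ j t)) t := by
      rw [e]
      refine hf.sub (HasDerivAt.fun_sum fun j hj => ?_)
      exact (hc j).smul (hd j)
    rw [h1.deriv, inner_sub_right, inner_sum, Finset.sum_eq_zero, sub_zero]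
    intro j hj
    have hji : j < i := Finset.mem_Iio.1 hj
    rw [inner_add_right, inner_smul_right, inner_smul_right,
      ih j hji fun k hk => hw k (hk.trans hji.le),
      inner_gs_eq_zero j t w fun k hk => hw k (hk.trans hji.le)]
    have h2 := hw ⟨j.val + 1, by omega⟩ (by rw [Fin.le_def]; simpa using hji)
    simp only at h2
    rw [show j.val + 2 = j.val + 1 + 1 from rfl, h2]
    ring

lemma inner_deriv_frame (hγ : ContDiff ℝ ∞ γ) (hn : Nondegenerate γ) (i : Fin n) (t : ℝ) (w : E n)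
    (hw : ∀ k ≤ i, inner ℝ w (iteratedDeriv (k.val + 1) γ t) = 0) :
    inner ℝ w (deriv (frame γ i) t) =
      ‖gs γ i t‖⁻¹ * inner ℝ w (iteratedDeriv (i.val + 2) γ t) := by
  have e : frame γ i = fun t => ‖gs γ i t‖⁻¹ • gs γ i t := funext fun t => frame_eq γ i t
  have hd : HasDerivAt (gs γ i) (deriv (gs γ i) t) t :=
    (((contDiff_gs hγ hn i).differentiable (by simp)).differentiableAt).hasDerivAt
  have h0 : ContDiff ℝ ∞ fun t => ‖gs γ i t‖⁻¹ :=
    ContDiff.inv ((contDiff_gs hγ hn i).norm ℝ fun t => gs_ne_zero hn i t)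
      fun t => norm_ne_zero_iff.2 (gs_ne_zero hn i t)
  have hc : HasDerivAt (fun t => ‖gs γ i t‖⁻¹) (deriv (fun t => ‖gs γ i t‖⁻¹) t) t :=
    ((h0.differentiable (by simp)).differentiableAt).hasDerivAt
  have h1 : HasDerivAt (fun t => ‖gs γ i t‖⁻¹ • gs γ i t)
      (‖gs γ i t‖⁻¹ • deriv (gs γ i) t + deriv (fun t => ‖gs γ i t‖⁻¹) t • gs γ i t) t :=
    hc.smul hd
  rw [e, h1.deriv, inner_add_right, inner_smul_right, inner_smul_right,
    inner_gs_eq_zero i t w hw, inner_deriv_gs hγ hn i t w hw]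
  ring

end Pool.Agent.H70pc
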