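import Pool.Agent.H70pc.Frame

/-!
# The length of the Frenet frame
-/

set_option autoImplicit false

open Real MeasureTheory intervalIntegral
open scoped ContDiff

namespace Pool.Agent.H70pc

variable {n : ℕ} {γ : ℝ → E n}

lemma orthonormal_frame (hn : Nondegenerate γ) (t : ℝ) : Orthonormal ℝ fun i => frame γ i t :=
  InnerProductSpace.gramSchmidtNormed_orthonormal (hn t)

lemma norm_frame (hn : Nondegenerate γ) (i : Fin n) (t : ℝ) : ‖frame γ i t‖ = 1 :=
  (orthonormal_frame hn t).1 i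

lemma gs_zero (h : 0 < n) (γ : ℝ → E n) (t : ℝ) : gs γ ⟨0, h⟩ t = deriv γ t := by
  rw [gs_eq]
  have : Finset.Iio (⟨0, h⟩ : Fin n) = ∅ := by
    ext j
    simp [Fin.lt_def]
  rw [this, Finset.sum_empty, sub_zero]
  show iteratedDeriv (0 + 1) γ t = _
  rw [zero_add, iteratedDeriv_one]

lemma deriv_ne_zero (h : 0 < n) (hn : Nondegenerate γ) (t : ℝ) : deriv γ t ≠ 0 := by
  rw [← gs_zero h]
  exact gs_ne_zero hn _ t

lemma frame_zero (h : 0 < n) (γ : ℝ → E n) (t : ℝ) :
    frame γ ⟨0, h⟩ t = ‖deriv γ t‖⁻¹ • deriv γ t := by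
  rw [frame_eq, gs_zero h]

lemma smul_frame_zero (h : 0 < n) (hn : Nondegenerate γ) (t : ℝ) :
    ‖deriv γ t‖ • frame γ ⟨0, h⟩ t = deriv γ t := by
  rw [frame_zero h, smul_smul, mul_inv_cancel₀ (norm_ne_zero_iff.2 (deriv_ne_zero h hn t)),
    one_smul]

lemma gs_eq_smul_frame (hn : Nondegenerate γ) (i : Fin n) (t : ℝ) :
    gs γ i t = ‖gs γ i t‖ • frame γ i t := by
  rw [frame_eq, smul_smul, mul_inv_cancel₀ (norm_ne_zero_iff.2 (gs_ne_zero hn i t)), one_smul]

/-- a vector orthogonal to the first vectors of the frame is orthogonal to the first derivatives -/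
lemma inner_iter_of_frame (hn : Nondegenerate γ) (i : Fin n) (t : ℝ) (w : E n)
    (hw : ∀ k ≤ i, inner ℝ w (frame γ k t) = 0) (k : Fin n) (hk : k ≤ i) :
    inner ℝ w (iteratedDeriv (k.val + 1) γ t) = 0 := by
  refine inner_iter_eq_zero k t w fun j hj => ?_
  rw [gs_eq_smul_frame hn, inner_smul_right, hw j (hj.trans hk), mul_zero]

lemma hasDerivAt_frame (hγ : ContDiff ℝ ∞ γ) (hn : Nondegenerate γ) (i : Fin n) (t : ℝ) :
    HasDerivAt (frame γ i) (deriv (frame γ i) t) t :=
  (((contDiff_frame hγ hn i).differentiable (by simp)).differentiableAt).hasDerivAt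

lemma inner_deriv_self (hγ : ContDiff ℝ ∞ γ) (hn : Nondegenerate γ) (i : Fin n) (t : ℝ) :
    inner ℝ (deriv (frame γ i) t) (frame γ i t) = 0 := by
  have h1 := (hasDerivAt_frame hγ hn i t).inner ℝ (hasDerivAt_frame hγ hn i t)
  have h2 : (fun s => inner ℝ (frame γ i s) (frame γ i s)) = fun _ => (1 : ℝ) := by
    funext s
    rw [real_inner_self_eq_norm_sq, norm_frame hn, one_pow]
  rw [h2] at h1
  have h3 := h1.unique (hasDerivAt_const t (1 : ℝ))
  rw [real_inner_comm] at h3
  linarith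

/-- `|⟨e_1', e_2⟩| = |e_1'|` -/
lemma norm_deriv_frame_zero (h : 1 < n) (hγ : ContDiff ℝ ∞ γ) (hn : Nondegenerate γ) (t : ℝ) :
    ‖deriv (frame γ ⟨0, by omega⟩) t‖ =
      |inner ℝ (deriv (frame γ ⟨0, by omega⟩) t) (frame γ ⟨1, h⟩ t)| := by
  set a := deriv (frame γ ⟨0, by omega⟩) t with ha
  set e := frame γ ⟨1, h⟩ t with he
  have hee : inner ℝ e e = (1 : ℝ) := by
    rw [real_inner_self_eq_norm_sq, he, norm_frame hn, one_pow]
  have h0 : inner ℝ a (frame γ ⟨0, by omega⟩ t) = 0 := inner_deriv_self hγ hn _ t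
  have h01 : inner ℝ e (frame γ ⟨0, by omega⟩ t) = 0 :=
    (orthonormal_frame hn t).2 (by simp [Fin.ext_iff])
  set w := a - inner ℝ a e • e with hw
  have hwk : ∀ k ≤ (⟨1, h⟩ : Fin n), inner ℝ w (frame γ k t) = 0 := by
    intro k hk
    have hk' : k.val = 0 ∨ k.val = 1 := by
      have : k.val ≤ 1 := hk
      omega
    rcases hk' with hk' | hk'
    · have : k = ⟨0, by omega⟩ := Fin.ext hk'
      rw [this, hw, inner_sub_left, inner_smul_left, h0, h01]
      simp
    · have : k = ⟨1, h⟩ := Fin.ext hk'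
      rw [this, hw, inner_sub_left, inner_smul_left, ← he, hee]
      simp
  have h1 := inner_deriv_frame hγ hn ⟨0, by omega⟩ t w fun k hk =>
    inner_iter_of_frame hn ⟨1, h⟩ t w hwk k (hk.trans (by simp [Fin.le_def]))
  have h2 := inner_iter_of_frame hn ⟨1, h⟩ t w hwk ⟨1, h⟩ le_rfl
  simp only at h1 h2
  rw [show (0 : ℕ) + 2 = 1 + 1 from rfl, h2, mul_zero, ← ha] at h1
  have h3 : inner ℝ w e = 0 := hwk ⟨1, h⟩ le_rfl
  have h4 : inner ℝ w w = (0 : ℝ) := by
    conv_lhs => rw [hw]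
    rw [inner_sub_left, ← hw, inner_smul_left, real_inner_comm w a, h1, real_inner_comm w e, h3]
    simp
  have h5 : w = 0 := inner_self_eq_zero.1 h4
  have h6 : a = inner ℝ a e • e := by rw [← sub_eq_zero]; exact h5
  have h7 : ‖a‖ = ‖(inner ℝ a e : ℝ) • e‖ := congrArg norm h6
  rw [h7, norm_smul, he, norm_frame hn, mul_one, norm_eq_abs]

/-- `⟨e_i', e_(i+1)⟩ > 0` -/
lemma inner_deriv_frame_pos (hγ : ContDiff ℝ ∞ γ) (hn : Nondegenerate γ) (t : ℝ) (i : ℕ)
    (hi : i + 1 < n) :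
    0 < inner ℝ (deriv (frame γ ⟨i, by omega⟩) t) (frame γ ⟨i + 1, hi⟩ t) := by
  have hw : ∀ k ≤ (⟨i, by omega⟩ : Fin n), inner ℝ (frame γ ⟨i + 1, hi⟩ t) (frame γ k t) = 0 := by
    intro k hk
    refine (orthonormal_frame hn t).2 fun h => ?_
    have h1 : k.val ≤ i := hk
    have h2 : i + 1 = k.val := congrArg Fin.val h
    omega
  have h1 := inner_deriv_frame hγ hn ⟨i, by omega⟩ t (frame γ ⟨i + 1, hi⟩ t) fun k hk =>
    inner_iter_of_frame hn ⟨i, by omega⟩ t _ hw k hk
  rw [real_inner_comm, h1]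
  refine mul_pos (inv_pos.2 (norm_pos_iff.2 (gs_ne_zero hn _ t))) ?_
  simp only
  have h2 : iteratedDeriv (i + 2) γ t = gs γ ⟨i + 1, hi⟩ t +
      ∑ j ∈ Finset.Iio (⟨i + 1, hi⟩ : Fin n), coef γ ⟨i + 1, hi⟩ j t • gs γ j t := by
    have := gs_eq γ ⟨i + 1, hi⟩ t
    simp only at this
    rw [this]
    simp only [coef]
    rw [show i + 2 = i + 1 + 1 from rfl, sub_add_cancel]
  rw [h2, inner_add_right, inner_sum, Finset.sum_eq_zero, add_zero]
  · conv_rhs => rw [gs_eq_smul_frame hn]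
    rw [inner_smul_right, real_inner_self_eq_norm_sq, norm_frame hn]
    have := norm_pos_iff.2 (gs_ne_zero hn ⟨i + 1, hi⟩ t)
    simpa using this
  · intro j hj
    have hj' : j.val < i + 1 := Fin.lt_def.1 (Finset.mem_Iio.1 hj)
    rw [inner_smul_right, gs_eq_smul_frame hn, inner_smul_right,
      hw j (by rw [Fin.le_def]; simp only; omega)]
    simp

lemma curvature_pos (hγ : ContDiff ℝ ∞ γ) (hn : Nondegenerate γ) (i : Fin (n - 1)) (t : ℝ) :
    0 < curvature γ i t := by
  have hi := i.isLt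
  refine div_pos (inner_deriv_frame_pos hγ hn t i.val (by omega)) ?_
  exact norm_pos_iff.2 (deriv_ne_zero (by omega) hn t)

lemma continuous_curvature (hγ : ContDiff ℝ ∞ γ) (hn : Nondegenerate γ) (i : Fin (n - 1)) :
    Continuous (curvature γ i) := by
  have hi := i.isLt
  refine Continuous.div ?_ ?_ fun t => norm_ne_zero_iff.2 (deriv_ne_zero (by omega) hn t)
  · exact ((contDiff_frame hγ hn _).continuous_deriv (by simp)).inner
      (contDiff_frame hγ hn _).continuous
  · exact (hγ.continuous_deriv (by simp)).norm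

/-- The frame of a nondegenerate closed curve in `ℝⁿ`, `n ≥ 3`, is longer than `2π`. -/
theorem frameLength_gt (h : 3 ≤ n) (hc : IsClosedCurve γ) (hn : Nondegenerate γ) :
    2 * π < frameLength γ := by
  have hγ := hc.1
  have h0 : 0 < n := by omega
  have hcd : Continuous (deriv γ) := hγ.continuous_deriv (by simp)
  have hF : 2 * π ≤ ∫ t in (0 : ℝ)..2 * π, ‖deriv (frame γ ⟨0, h0⟩) t‖ := by
    refine fenchel (v := fun t => ‖deriv γ t‖)
      ((contDiff_frame hγ hn ⟨0, h0⟩).of_le (by exact_mod_cast le_top)) (norm_frame hn _)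
      hcd.norm (fun t => norm_pos_iff.2 (deriv_ne_zero h0 hn t)) (by positivity) ?_ ?_
    · have hp : Function.Periodic (deriv γ) (2 * π) := by
        intro t
        rw [← deriv_comp_add_const]
        congr 1
        funext s
        exact hc.2 s
      rw [frame_zero h0, frame_zero h0]
      have := hp 0
      rw [zero_add] at this
      rw [this]
    · simp only [smul_frame_zero h0 hn]
      rw [intervalIntegral.integral_deriv_eq_sub
        (fun x _ => (hγ.differentiable (by simp)).differentiableAt)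
        (hcd.intervalIntegrable _ _)]
      have := hc.2 0
      rw [zero_add] at this
      rw [this, sub_self]
  refine lt_of_le_of_lt hF ?_
  have hlt : ∀ t, ‖deriv (frame γ ⟨0, h0⟩) t‖ <
      √(∑ i : Fin (n - 1), curvature γ i t ^ 2) * ‖deriv γ t‖ := by
    intro t
    have hd := norm_pos_iff.2 (deriv_ne_zero h0 hn t)
    have e1 : curvature γ ⟨0, by omega⟩ t * ‖deriv γ t‖ = ‖deriv (frame γ ⟨0, h0⟩) t‖ := by
      rw [norm_deriv_frame_zero (by omega) hγ hn, curvature, div_mul_cancel₀ _ hd.ne']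
      rw [abs_of_pos]
      exact inner_deriv_frame_pos hγ hn t 0 (by omega)
    rw [← e1]
    refine mul_lt_mul_of_pos_right ?_ hd
    have p0 := curvature_pos hγ hn ⟨0, by omega⟩ t
    have p1 := curvature_pos hγ hn ⟨1, by omega⟩ t
    refine lt_sqrt_of_sq_lt ?_
    have e2 : ∑ i ∈ ({⟨0, by omega⟩, ⟨1, by omega⟩} : Finset (Fin (n - 1))),
        curvature γ i t ^ 2 ≤ ∑ i : Fin (n - 1), curvature γ i t ^ 2 :=
      Finset.sum_le_sum_of_subset_of_nonneg (Finset.subset_univ _) fun _ _ _ => sq_nonneg _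
    rw [Finset.sum_pair (by simp [Fin.ext_iff])] at e2
    nlinarith
  refine intervalIntegral.integral_lt_integral_of_continuousOn_of_le_of_exists_lt (by positivity)
    ?_ ?_ (fun t _ => (hlt t).le) ⟨0, ⟨le_rfl, by positivity⟩, hlt 0⟩
  · exact ((contDiff_frame hγ hn _).continuous_deriv (by simp)).norm.continuousOn
  · refine Continuous.continuousOn ?_
    refine Continuous.mul (Continuous.sqrt ?_) hcd.norm
    exact continuous_finsetSum _ fun i _ => (continuous_curvature hγ hn i).pow 2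

end Pool.Agent.H70pc
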