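import Pool.Agent.H70pc.Defs

set_option autoImplicit false

open Real MeasureTheory intervalIntegral
open scoped ContDiff

namespace Pool.Agent.H70pc

/-! ### Scalar products with derivatives -/

lemma iteratedDeriv_inner {n : ℕ} {γ : ℝ → E n} (hγ : ContDiff ℝ ∞ γ) (w : E n) (k : ℕ) (t : ℝ) :
    inner ℝ w (iteratedDeriv k γ t) = iteratedDeriv k (fun s => inner ℝ w (γ s)) t := by
  induction k generalizing t with
  | zero => simp
  | succ k ih =>
    rw [iteratedDeriv_succ, iteratedDeriv_succ]
    have h1 : (iteratedDeriv k fun s => inner ℝ w (γ s)) =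
        fun t => inner ℝ w (iteratedDeriv k γ t) := by
      funext s
      exact (ih s).symm
    rw [h1]
    have h2 : DifferentiableAt ℝ (iteratedDeriv k γ) t :=
      (hγ.differentiable_iteratedDeriv k (by exact_mod_cast WithTop.coe_lt_top _)) t
    have h3 := (h2.hasDerivAt.inner ℝ (hasDerivAt_const t w)).deriv
    have h4 : HasDerivAt (fun t => inner ℝ w (iteratedDeriv k γ t))
        (inner ℝ w (deriv (iteratedDeriv k γ) t)) t := by
      have := (hasDerivAt_const t w).inner ℝ h2.hasDerivAt
      simpa using this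
    exact h4.deriv.symm

lemma linearIndependent_of_inner {n : ℕ} (x : Fin n → E n)
    (h : ∀ w : E n, (∀ k, inner ℝ w (x k) = 0) → w = 0) : LinearIndependent ℝ x := by
  apply linearIndependent_of_top_le_span_of_card_eq_finrank
  · rw [top_le_iff, ← Submodule.orthogonal_eq_bot_iff, Submodule.eq_bot_iff]
    intro w hw
    apply h
    intro k
    have := (Submodule.mem_orthogonal _ _).1 hw (x k) (Submodule.subset_span ⟨k, rfl⟩)
    rw [real_inner_comm]
    exact this
  · simp

lemma inner_eq_zero_of_linearIndependent {n : ℕ} {x : Fin n → E n} (hx : LinearIndependent ℝ x)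
    {w : E n} (h : ∀ k, inner ℝ w (x k) = 0) : w = 0 := by
  have h1 : Submodule.span ℝ (Set.range x) = ⊤ :=
    hx.span_eq_top_of_card_eq_finrank' (by simp)
  have h2 : w ∈ (Submodule.span ℝ (Set.range x))ᗮ := by
    rw [Submodule.mem_orthogonal]
    intro u hu
    refine Submodule.span_induction (p := fun u _ => inner ℝ u w = 0) ?_ ?_ ?_ ?_ hu
    · rintro _ ⟨k, rfl⟩
      rw [real_inner_comm]
      exact h k
    · simp
    · intro a b _ _ ha hb
      rw [inner_add_left, ha, hb, add_zero]
    · intro r a _ ha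
      rw [inner_smul_left, ha, mul_zero]
  rw [h1, Submodule.top_orthogonal_eq_bot, Submodule.mem_bot] at h2
  exact h2

lemma nondegenerate_iff {n : ℕ} {γ : ℝ → E n} (hγ : ContDiff ℝ ∞ γ) :
    Nondegenerate γ ↔ ∀ (t : ℝ) (w : E n),
      (∀ k < n, iteratedDeriv (k + 1) (fun s => inner ℝ w (γ s)) t = 0) → w = 0 := by
  constructor
  · intro h t w hw
    refine inner_eq_zero_of_linearIndependent (h t) fun k => ?_
    rw [iteratedDeriv_inner hγ]
    exact hw k k.2
  · intro h t
    refine linearIndependent_of_inner _ fun w hw => h t w fun k hk => ?_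
    rw [← iteratedDeriv_inner hγ]
    exact hw ⟨k, hk⟩

/-! ### Solving `f'' + f = G` for `π`-periodic `G` -/

section ode

variable {n : ℕ} {G : ℝ → E n}

noncomputable def cosInt (G : ℝ → E n) (t : ℝ) : E n := ∫ s in (0 : ℝ)..t, cos s • G s

noncomputable def sinInt (G : ℝ → E n) (t : ℝ) : E n := ∫ s in (0 : ℝ)..t, sin s • G s

/-- The periodic solution of `f'' + f = G`. -/
noncomputable def sol (G : ℝ → E n) (t : ℝ) : E n := sin t • cosInt G t - cos t • sinInt G t

lemma hasDerivAt_cosInt (hG : ContDiff ℝ ∞ G) (t : ℝ) :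
    HasDerivAt (cosInt G) (cos t • G t) t := by
  have hc : Continuous fun s => cos s • G s := continuous_cos.smul hG.continuous
  exact integral_hasDerivAt_right (hc.intervalIntegrable _ _)
    hc.aestronglyMeasurable.stronglyMeasurableAtFilter hc.continuousAt

lemma hasDerivAt_sinInt (hG : ContDiff ℝ ∞ G) (t : ℝ) :
    HasDerivAt (sinInt G) (sin t • G t) t := by
  have hc : Continuous fun s => sin s • G s := continuous_sin.smul hG.continuous
  exact integral_hasDerivAt_right (hc.intervalIntegrable _ _)
    hc.aestronglyMeasurable.stronglyMeasurableAtFilter hc.continuousAt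

lemma contDiff_cosInt (hG : ContDiff ℝ ∞ G) : ContDiff ℝ ∞ (cosInt G) := by
  rw [contDiff_infty_iff_deriv]
  refine ⟨fun t => (hasDerivAt_cosInt hG t).differentiableAt, ?_⟩
  rw [show deriv (cosInt G) = fun t => cos t • G t from
    funext fun t => (hasDerivAt_cosInt hG t).deriv]
  exact contDiff_cos.smul hG

lemma contDiff_sinInt (hG : ContDiff ℝ ∞ G) : ContDiff ℝ ∞ (sinInt G) := by
  rw [contDiff_infty_iff_deriv]
  refine ⟨fun t => (hasDerivAt_sinInt hG t).differentiableAt, ?_⟩
  rw [show deriv (sinInt G) = fun t => sin t • G t from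
    funext fun t => (hasDerivAt_sinInt hG t).deriv]
  exact contDiff_sin.smul hG

lemma contDiff_sol (hG : ContDiff ℝ ∞ G) : ContDiff ℝ ∞ (sol G) :=
  (contDiff_sin.smul (contDiff_cosInt hG)).sub (contDiff_cos.smul (contDiff_sinInt hG))

lemma hasDerivAt_sol (hG : ContDiff ℝ ∞ G) (t : ℝ) :
    HasDerivAt (sol G) (cos t • cosInt G t + sin t • sinInt G t) t := by
  have h1 := (hasDerivAt_sin t).smul (hasDerivAt_cosInt hG t)
  have h2 := (hasDerivAt_cos t).smul (hasDerivAt_sinInt hG t)
  have h3 := h1.sub h2
  refine h3.congr_deriv ?_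
  module

lemma hasDerivAt_deriv_sol (hG : ContDiff ℝ ∞ G) (t : ℝ) :
    HasDerivAt (deriv (sol G)) (G t - sol G t) t := by
  have h0 : deriv (sol G) = fun t => cos t • cosInt G t + sin t • sinInt G t :=
    funext fun t => (hasDerivAt_sol hG t).deriv
  rw [h0]
  have h1 := (hasDerivAt_cos t).smul (hasDerivAt_cosInt hG t)
  have h2 := (hasDerivAt_sin t).smul (hasDerivAt_sinInt hG t)
  have h3 := h1.add h2
  refine h3.congr_deriv ?_
  have hcs : cos t ^ 2 + sin t ^ 2 = 1 := cos_sq_add_sin_sq t
  have h5 : G t = (cos t ^ 2 + sin t ^ 2) • G t := by rw [hcs, one_smul]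
  unfold sol
  conv_rhs => rw [h5]
  module

/-- The integral of an antiperiodic function over two half periods is zero. -/
lemma integral_zero_of_antiperiodic {F : ℝ → E n} (hc : Continuous F)
    (h : ∀ t, F (t + π) = - F t) (t : ℝ) : ∫ s in t..(t + 2 * π), F s = 0 := by
  have h1 : ∫ s in (t + π)..(t + 2 * π), F s = - ∫ s in t..(t + π), F s := by
    have h2 : ∫ s in t..(t + π), F (s + π) = ∫ s in (t + π)..(t + π + π), F s := by
      rw [intervalIntegral.integral_comp_add_right]
    rw [show t + π + π = t + 2 * π by ring] at h2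
    rw [← h2, ← intervalIntegral.integral_neg]
    exact intervalIntegral.integral_congr fun s _ => h s
  rw [← intervalIntegral.integral_add_adjacent_intervals (hc.intervalIntegrable t (t + π))
    (hc.intervalIntegrable _ _), h1, add_neg_cancel]

lemma periodic_of_antiperiodic {F : ℝ → E n} (hc : Continuous F)
    (h : ∀ t, F (t + π) = - F t) :
    Function.Periodic (fun t => ∫ s in (0 : ℝ)..t, F s) (2 * π) := by
  intro t
  show ∫ s in (0 : ℝ)..(t + 2 * π), F s = ∫ s in (0 : ℝ)..t, F s
  rw [← intervalIntegral.integral_add_adjacent_intervals (hc.intervalIntegrable 0 t)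
    (hc.intervalIntegrable t (t + 2 * π)), integral_zero_of_antiperiodic hc h, add_zero]

lemma periodic_sol (hG : ContDiff ℝ ∞ G) (hp : Function.Periodic G π) :
    Function.Periodic (sol G) (2 * π) := by
  have h1 : Function.Periodic (cosInt G) (2 * π) :=
    periodic_of_antiperiodic (continuous_cos.smul hG.continuous) fun t => by
      rw [cos_add_pi, hp t, neg_smul]
  have h2 : Function.Periodic (sinInt G) (2 * π) :=
    periodic_of_antiperiodic (continuous_sin.smul hG.continuous) fun t => by
      rw [sin_add_pi, hp t, neg_smul]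
  intro t
  unfold sol
  rw [h1 t, h2 t, sin_add_two_pi, cos_add_two_pi]

end ode

end Pool.Agent.H70pc
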